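import Mathlib

set_option autoImplicit false

namespace Pool.Agent.Gor

open Function LinearMap

/-- `M` has a finite free resolution whose `n`-th term has rank `N`, truncated form. -/
def Gen (R : Type) [CommRing R] (N : ℕ) : ℕ → (M : Type) → [AddCommGroup M] → [Module R M] → Prop
  | 0, M, _, _ => ∃ f : (Fin N → R) →ₗ[R] M, Surjective f
  | n + 1, M, _, _ => ∃ (r : ℕ) (f : (Fin r → R) →ₗ[R] M), Surjective f ∧ Gen R N n (ker f)

variable {R : Type} [CommRing R] {N : ℕ}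

theorem Gen.equiv : ∀ {n : ℕ} {M M' : Type} [AddCommGroup M] [Module R M] [AddCommGroup M']
    [Module R M'] (_ : M ≃ₗ[R] M'), Gen R N n M → Gen R N n M'
  | 0, _, _, _, _, _, _, e, ⟨f, hf⟩ => ⟨e.toLinearMap ∘ₗ f, e.surjective.comp hf⟩
  | _ + 1, _, _, _, _, _, _, e, ⟨r, f, hf, h⟩ => ⟨r, e.toLinearMap ∘ₗ f, e.surjective.comp hf,
      Gen.equiv (LinearEquiv.ofEq _ _ (by ext; simp)) h⟩

variable {n : ℕ} {M F G K : Type} [AddCommGroup M] [Module R M] [AddCommGroup F] [Module R F]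
  [AddCommGroup G] [Module R G] [AddCommGroup K] [Module R K]

theorem Gen.step [Nontrivial R] [Module.Free R F] [Module.Finite R F] (f : F →ₗ[R] M)
    (hf : Surjective f) (ι : K →ₗ[R] F) (hι : Injective ι) (h : ∀ x, f x = 0 ↔ ∃ y, ι y = x)
    (hK : Gen R N n K) : Gen R N (n + 1) M := by
  let e := (Module.finBasis R F).equivFun.symm
  refine ⟨_, f ∘ₗ e.toLinearMap, hf.comp e.surjective, hK.equiv ?_⟩
  exact (LinearEquiv.ofInjective ι hι).trans ((LinearEquiv.ofEq _ (ker f)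
    (Submodule.ext fun x => (h x).symm)).trans (e.ofSubmodule' (ker f)).symm)

theorem Gen.add [Nontrivial R] [Module.Free R F] [Module.Finite R F] (h : Gen R N (n + 1) M) :
    Gen R N (n + 1) (M × F) := by
  obtain ⟨r, f, hf, h⟩ := h
  refine h.step (f.prodMap (LinearMap.id : F →ₗ[R] F)) (hf.prodMap surjective_id)
    (inl R _ _ ∘ₗ (ker f).subtype) (inl_injective.comp Subtype.val_injective) fun x => ?_
  constructor
  · intro hx
    have h1 := congrArg Prod.fst hx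
    have h2 := congrArg Prod.snd hx
    exact ⟨⟨x.1, h1⟩, Prod.ext rfl h2.symm⟩
  · rintro ⟨⟨y, hy⟩, rfl⟩
    exact Prod.ext hy rfl

theorem Gen.step2 [Nontrivial R] [Module.Free R F] [Module.Finite R F] [Module.Free R G]
    [Module.Finite R G] (f : F →ₗ[R] M) (hf : Surjective f) (h : Gen R N n (ker f × G)) :
    Gen R N (n + 1) M := by
  refine h.step (f ∘ₗ fst R F G) (hf.comp Prod.fst_surjective)
    ((ker f).subtype.prodMap (LinearMap.id : G →ₗ[R] G))
    (Subtype.val_injective.prodMap injective_id) fun x => ?_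
  constructor
  · intro hx
    exact ⟨(⟨x.1, hx⟩, x.2), rfl⟩
  · rintro ⟨⟨⟨y, hy⟩, z⟩, rfl⟩
    exact hy

theorem Gen.remove [Nontrivial R] [Module.Free R F] [Module.Finite R F]
    (h : Gen R N (n + 2) (M × F)) : Gen R N (n + 2) M := by
  obtain ⟨r, f, hf, h⟩ := h
  obtain ⟨s, hs⟩ := Module.projective_lifting_property f (inr R M F) hf
  have hs' : ∀ y, f (s y) = (0, y) := fun y => LinearMap.congr_fun hs y
  refine (h.add (F := F)).step (fst R M F ∘ₗ f) (Prod.fst_surjective.comp hf)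
    ((ker f).subtype.coprod s) ?_ fun x => ?_
  · rw [injective_iff_map_eq_zero]
    rintro ⟨⟨z, hz⟩, y⟩ h
    have h1 : z + s y = 0 := h
    have h2 := congrArg f h1
    rw [map_add, hz, hs', zero_add, map_zero] at h2
    obtain rfl : y = 0 := congrArg Prod.snd h2
    rw [map_zero, add_zero] at h1
    subst h1
    rfl
  · constructor
    · intro hx
      refine ⟨(⟨x - s (f x).2, ?_⟩, (f x).2), by simp⟩
      rw [mem_ker, map_sub, hs', sub_eq_zero]
      exact Prod.ext hx rfl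
    · rintro ⟨⟨⟨z, hz⟩, y⟩, rfl⟩
      change (f (z + s y)).1 = 0
      rw [map_add, hz, hs', zero_add]

/-- The comparison map of Schanuel. -/
def sch (f : F →ₗ[R] M) (g : G →ₗ[R] M) (a : F →ₗ[R] G) (b : G →ₗ[R] F) (ha : ∀ x, g (a x) = f x)
    (hb : ∀ y, f (b y) = g y) : (ker f × G) →ₗ[R] ker g × F :=
  LinearMap.prod (codRestrict _ (snd R _ _ - a ∘ₗ (ker f).subtype.coprod b) (by
    rintro ⟨⟨z, hz⟩, y⟩
    change g (y - a (z + b y)) = 0
    rw [map_sub, ha, map_add, hz, hb, zero_add, sub_self])) ((ker f).subtype.coprod b)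

theorem Gen.schanuel [Nontrivial R] [Module.Free R F] [Module.Finite R F] [Module.Free R G]
    [Module.Finite R G] (f : F →ₗ[R] M) (hf : Surjective f) (g : G →ₗ[R] M) (hg : Surjective g)
    (h : Gen R N (n + 2) (ker f)) : Gen R N (n + 2) (ker g) := by
  obtain ⟨a, ha⟩ := Module.projective_lifting_property g f hg
  obtain ⟨b, hb⟩ := Module.projective_lifting_property f g hf
  have ha' : ∀ y, g (a y) = f y := fun y => LinearMap.congr_fun ha y
  have hb' : ∀ y, f (b y) = g y := fun y => LinearMap.congr_fun hb y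
  refine ((h.add (F := G)).equiv
    (LinearEquiv.ofLinearMap (sch f g a b ha' hb') (sch g f b a hb' ha') ?_ ?_)).remove
  · ext <;> simp [sch]
  · ext <;> simp [sch]

theorem Gen.serre [Nontrivial R] [Module.Free R F] [Module.Finite R F] (f : F →ₗ[R] M)
    (hf : Surjective f) (d : G →ₗ[R] F) (hd : ∀ x, f x = 0 ↔ ∃ y, d y = x)
    (φ : G →ₗ[R] Fin N → R) (ρ : F →ₗ[R] G) (μ : (Fin N → R) →ₗ[R] G)
    (h : ∀ y, ρ (d y) + μ (φ y) = y) : Gen R N 1 (M × G) := by
  have hfd : ∀ y, f (d y) = 0 := fun y => (hd _).2 ⟨y, rfl⟩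
  let ψ : (F × (Fin N → R)) →ₗ[R] M × G := LinearMap.prod (f ∘ₗ fst R _ _) (ρ.coprod μ)
  have hψ : ∀ x p, ψ (x, p) = (f x, ρ x + μ p) := fun _ _ => rfl
  refine Gen.step (n := 0) ψ ?_ (ker ψ).subtype Subtype.val_injective
    (fun x => ⟨fun hx => ⟨⟨x, hx⟩, rfl⟩, fun ⟨y, hy⟩ => hy ▸ y.2⟩) ?_
  · rintro ⟨z, y⟩
    obtain ⟨x, rfl⟩ := hf z
    refine ⟨(x + d (y - ρ x), φ (y - ρ x)), ?_⟩
    rw [hψ, map_add, hfd, add_zero, map_add, add_assoc, h, add_sub_cancel]
  · refine ⟨codRestrict _ (LinearMap.prod (-(d ∘ₗ μ)) (LinearMap.id - φ ∘ₗ μ)) fun q => ?_, ?_⟩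
    · change ψ (-(d (μ q)), q - φ (μ q)) = 0
      rw [hψ, map_neg, hfd, neg_zero, map_neg, map_sub]
      refine Prod.ext rfl ?_
      change -ρ (d (μ q)) + (μ q - μ (φ (μ q))) = 0
      rw [neg_add_eq_zero, eq_sub_iff_add_eq, h]
    · rintro ⟨⟨x, p⟩, hx⟩
      rw [mem_ker, hψ] at hx
      obtain ⟨y, rfl⟩ := (hd x).1 (congrArg Prod.fst hx)
      have h2 : ρ (d y) + μ p = 0 := congrArg Prod.snd hx
      have h3 : μ (p - φ y) = -y := by
        rw [map_sub]
        linear_combination (norm := abel1) h2 - h y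
      refine ⟨p - φ y, Subtype.ext ?_⟩
      change (-(d (μ (p - φ y))), p - φ y - φ (μ (p - φ y))) = (d y, p)
      rw [h3, map_neg, neg_neg, map_neg, sub_neg_eq_add, sub_add_cancel]

theorem exists_matrix {r s : ℕ} (f : (Fin s → R) →ₗ[R] Fin r → R) :
    ∃ A : Matrix (Fin r) (Fin s) R, A.mulVecLin = f :=
  ⟨LinearMap.toMatrix' f, by rw [← Matrix.toLin'_apply', Matrix.toLin'_toMatrix']⟩

/-- A resolution of a submodule of a finite free module, by matrices. -/
def Res (N n : ℕ) {s : ℕ} (U : Submodule R (Fin s → R)) : Prop :=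
  ∃ (r : ℕ → ℕ) (A : Matrix (Fin s) (Fin (r 0)) R)
    (d : ∀ n : ℕ, Matrix (Fin (r n)) (Fin (r (n + 1))) R), range A.mulVecLin = U ∧
    ker A.mulVecLin = range (d 0).mulVecLin ∧
    (∀ n, ker (d n).mulVecLin = range (d (n + 1)).mulVecLin) ∧ r n = N

theorem exists_res [IsNoetherianRing R] {s : ℕ} (U : Submodule R (Fin s → R)) :
    ∃ N, Res N 0 U := by
  have : ∀ x : Σ s : ℕ, Submodule R (Fin s → R), ∃ (r : ℕ) (A : Matrix (Fin x.1) (Fin r) R),
      range A.mulVecLin = x.2 := fun x => by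
    obtain ⟨r, f, hf⟩ := Module.Finite.exists_fin' R x.2
    obtain ⟨A, hA⟩ := exists_matrix (x.2.subtype ∘ₗ f)
    exact ⟨r, A, by rw [hA, range_comp, range_eq_top.2 hf, Submodule.map_top,
      Submodule.range_subtype]⟩
  choose r A hA using this
  let x : ℕ → Σ s : ℕ, Submodule R (Fin s → R) := fun n =>
    Nat.rec ⟨s, U⟩ (fun _ y => ⟨r y, ker (A y).mulVecLin⟩) n
  exact ⟨_, fun n => r (x n), A (x 0), fun n => A (x (n + 1)), hA _, (hA (x 1)).symm,
    fun n => (hA (x (n + 2))).symm, rfl⟩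

theorem Res.cons {s t N n : ℕ} (A : Matrix (Fin s) (Fin t) R) (h : Res N n (ker A.mulVecLin)) :
    ∃ (r : ℕ → ℕ) (B : Matrix (Fin s) (Fin (r 0)) R)
    (d : ∀ n : ℕ, Matrix (Fin (r n)) (Fin (r (n + 1))) R), range B.mulVecLin = range A.mulVecLin ∧
    ker B.mulVecLin = range (d 0).mulVecLin ∧
    (∀ n, ker (d n).mulVecLin = range (d (n + 1)).mulVecLin) ∧ r 0 = t ∧ r (n + 1) = N := by
  obtain ⟨r, B, d, h1, h2, h3, h4⟩ := h
  refine ⟨fun n => Nat.casesOn n t r, A, fun n => Nat.casesOn (motive := fun n =>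
    Matrix (Fin (Nat.casesOn n t r)) (Fin (r n)) R) n B d, rfl, h1.symm, fun n => ?_, rfl, h4⟩
  cases n with
  | zero => exact h2
  | succ n => exact h3 n

theorem Gen.res [IsNoetherianRing R] : ∀ {n s : ℕ} {U : Submodule R (Fin s → R)},
    Gen R N n U → Res N n U
  | 0, _, U, ⟨f, hf⟩ => by
    obtain ⟨A, hA⟩ := exists_matrix (U.subtype ∘ₗ f)
    obtain ⟨_, h⟩ := exists_res (ker A.mulVecLin)
    obtain ⟨r, B, d, h1, h2, h3, h4, -⟩ := h.cons
    exact ⟨r, B, d, by rw [h1, hA, range_comp, range_eq_top.2 hf, Submodule.map_top,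
      Submodule.range_subtype], h2, h3, h4⟩
  | n + 1, _, U, ⟨_, f, hf, h⟩ => by
    obtain ⟨A, hA⟩ := exists_matrix (U.subtype ∘ₗ f)
    have h : Res N n (ker A.mulVecLin) := by
      rw [hA, ker_comp, Submodule.ker_subtype, Submodule.comap_bot]
      exact h.res
    obtain ⟨r, B, d, h1, h2, h3, -, h4⟩ := h.cons
    exact ⟨r, B, d, by rw [h1, hA, range_comp, range_eq_top.2 hf, Submodule.map_top,
      Submodule.range_subtype], h2, h3, h4⟩

theorem Gen.final [IsNoetherianRing R] (I : Ideal R) (h : Gen R N n I) :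
    ∃ (r : ℕ → ℕ) (d : ∀ n : ℕ, Matrix (Fin (r n)) (Fin (r (n + 1))) R), r 0 = 1 ∧
      (∀ v : Fin (r 0) → R, v ∈ range (d 0).mulVecLin ↔ ∀ a, v a ∈ I) ∧
      (∀ n : ℕ, ker (d n).mulVecLin = range (d (n + 1)).mulVecLin) ∧ r (n + 1) ≤ N := by
  let e := (LinearEquiv.funUnique (Fin 1) R R)
  obtain ⟨r, B, d, h1, h2, h3, h4⟩ := (h.equiv (e.ofSubmodule' I).symm).res
  refine ⟨fun n => Nat.casesOn n 1 r, fun n => Nat.casesOn (motive := fun n =>
    Matrix (Fin (Nat.casesOn n 1 r)) (Fin (r n)) R) n B d, rfl, fun v => ?_, fun n => ?_, h4.le⟩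
  · change v ∈ range B.mulVecLin ↔ ∀ a : Fin 1, v a ∈ I
    rw [h1, Fin.forall_fin_one]
    rfl
  · cases n with
    | zero => exact h2
    | succ n => exact h3 n

end Pool.Agent.Gor
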