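import Pool.Agent.H.MP_05ef64_al.A

set_option autoImplicit false

namespace Pool.Agent.Gor

open Finset Function

variable {α : Type} [LinearOrder α] {R M : Type} [CommRing R] [CommRing M] [Algebra R M]

/-- The Koszul sign. -/
def sg (M : Type) [CommRing M] (j : α) (G : Finset α) : M := (-1) ^ #{g ∈ G | g < j}

lemma sg_sq (j : α) (G : Finset α) : sg M j G * sg M j G = 1 := by
  rw [sg, ← mul_pow, neg_one_mul, neg_neg, one_pow]

lemma sg_swap {j v : α} {G : Finset α} (h : j ≠ v) (hj : j ∉ G) (hv : v ∉ G) :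
    sg M j (insert v G) * sg M v (insert j G) = -(sg M j G * sg M v G) := by
  simp only [sg, filter_insert]
  rcases h.lt_or_gt with h | h
  · rw [if_neg h.not_gt, if_pos h, card_insert_of_notMem (by simp [hj])]
    ring
  · rw [if_neg h.not_gt, if_pos h, card_insert_of_notMem (by simp [hv])]
    ring

/-- The `j`-th term of the Koszul complex. -/
def Kj (R : Type) [CommRing R] (α M : Type) [CommRing M] [Algebra R M] (j : ℕ) :
    Submodule R (Finset α → M) :=
  Submodule.pi {F | #F ≠ j} fun _ => ⊥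

omit [LinearOrder α] in
lemma mem_Kj {j : ℕ} {c : Finset α → M} : c ∈ Kj R α M j ↔ ∀ F, #F ≠ j → c F = 0 := by simp [Kj]

/-- Coordinates on the `j`-th term. -/
def KjEquiv (j : ℕ) : ({F : Finset α // #F = j} → M) ≃ₗ[R] Kj R α M j where
  toFun g := ⟨fun F => if h : #F = j then g ⟨F, h⟩ else 0, mem_Kj.2 fun F hF => dif_neg hF⟩
  invFun c F := c.1 F.1
  map_add' g h := by
    ext F
    by_cases h : #F = j <;> simp [h]
  map_smul' g h := by
    ext F
    by_cases h : #F = j <;> simp [h]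
  left_inv g := by
    ext F
    simp [F.2]
  right_inv c := by
    ext F
    by_cases h : #F = j
    · simp [h]
    · simp [h, mem_Kj.1 c.2 F h]

variable [Fintype α]

/-- The differential of the Koszul complex. -/
def kz (R : Type) [CommRing R] [Algebra R M] (x : α → M) : (Finset α → M) →ₗ[R] Finset α → M :=
  LinearMap.pi fun G => ∑ l ∈ Gᶜ,
    LinearMap.mulLeft R (sg M l G * x l) ∘ₗ LinearMap.proj (insert l G)

variable {x : α → M} {j : ℕ} {c : Finset α → M} {v : α}

lemma kz_apply (G : Finset α) : kz R x c G = ∑ l ∈ Gᶜ, sg M l G * x l * c (insert l G) := by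
  simp [kz, mul_assoc]

lemma Kj_kz (h : c ∈ Kj R α M (j + 1)) : kz R x c ∈ Kj R α M j := mem_Kj.2 fun G hG => by
  rw [kz_apply]
  exact sum_eq_zero fun l hl => by
    rw [mem_Kj.1 h _ (by rw [card_insert_of_notMem (mem_compl.1 hl)]; omega), mul_zero]

lemma kz_kz : kz R x (kz R x c) = 0 := by
  ext G
  have h : kz R x (kz R x c) G = ∑ p ∈ Gᶜ ×ˢ Gᶜ with p.1 ≠ p.2,
      (sg M p.1 G * sg M p.2 (insert p.1 G)) * (x p.1 * x p.2 * c (insert p.2 (insert p.1 G))) := by
    rw [sum_filter, sum_product, kz_apply]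
    refine sum_congr rfl fun j _ => ?_
    rw [kz_apply, ← sum_filter, compl_insert, filter_ne, mul_sum]
    exact sum_congr rfl fun l _ => by ring
  rw [h]
  refine sum_involution (fun p _ => p.swap) (fun p hp => ?_) (fun p hp _ h => ?_)
    (fun p hp => ?_) fun _ _ => rfl
  · simp only [mem_filter, mem_product, mem_compl] at hp
    have h1 := sg_swap (M := M) hp.2 hp.1.1 hp.1.2
    have h2 : sg M p.1 G * sg M p.2 (insert p.1 G) + sg M p.2 G * sg M p.1 (insert p.2 G) = 0 := by
      linear_combination sg M p.1 G * sg M p.1 (insert p.2 G) * h1 -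
        sg M p.1 G * sg M p.2 (insert p.1 G) * sg_sq (M := M) p.1 (insert p.2 G) -
        sg M p.2 G * sg M p.1 (insert p.2 G) * sg_sq (M := M) p.1 G
    rw [Prod.fst_swap, Prod.snd_swap, insert_comm, mul_comm (x p.2), ← add_mul, h2, zero_mul]
  · exact (mem_filter.1 hp).2 (congrArg Prod.snd h)
  · simp only [mem_filter, mem_product] at hp ⊢
    exact ⟨hp.1.symm, hp.2.symm⟩

lemma kz_div (h1 : ∀ m, x v * m = 0 → m = 0) (hc : c ∈ Kj R α M j) (h5 : kz R x c = 0)
    (h6 : ∀ F, v ∉ F → ∃ u, x v * u = c F) : ∃ u ∈ Kj R α M (j + 1), kz R x u = c := by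
  choose! g hg using h6
  let u : Finset α → M := fun F => if v ∈ F then sg M v (F.erase v) * g (F.erase v) else 0
  have e : ∀ u : Finset α → M, (∀ F, v ∉ F → u F = 0) → ∀ G, v ∉ G →
      kz R x u G = sg M v G * x v * u (insert v G) := fun u h G hG => by
    rw [kz_apply, sum_eq_single v (fun l _ hl => by
      rw [h _ (by simp [hG, hl.symm]), mul_zero]) (by simp [hG])]
  have h7 : ∀ G, v ∉ G → (kz R x u - c) G = 0 := fun G hG => by
    rw [Pi.sub_apply, e u (fun F h => if_neg h) G hG]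
    simp only [u, if_pos (mem_insert_self v G), erase_insert hG]
    linear_combination x v * g G * sg_sq (M := M) v G + hg G hG
  refine ⟨u, mem_Kj.2 fun F hF => ite_eq_right_iff.2 fun h => ?_, sub_eq_zero.1 (funext fun F => ?_)⟩
  · rw [h1 (g _) ((hg _ (notMem_erase v F)).trans (mem_Kj.1 hc _ fun h' =>
      hF (h' ▸ (card_erase_add_one h).symm))), mul_zero]
  · by_cases h : v ∈ F
    · have := e _ h7 _ (notMem_erase v F)
      rw [map_sub, kz_kz, h5, sub_zero, insert_erase h] at this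
      refine h1 _ ?_
      have h8 : (0 : M) = _ := this
      linear_combination -(sg M v (F.erase v)) * h8 -
        x v * (kz R x u - c) F * sg_sq (M := M) v (F.erase v)
    · exact h7 F h

lemma kz_exact (κ : Finset α → M →+* M) (h1 : ∀ v m, x v * m = 0 → m = 0)
    (h2 : ∀ V l, κ V (x l) = if l ∈ V then x l else 0) (h3 : ∀ f, κ univ f = f)
    (h4 : ∀ V v f, ∃ q, x v * q = κ (insert v V) f - κ V f)
    (hc : c ∈ Kj R α M j) (h5 : kz R x c = 0) (h6 : κ ∅ (c ∅) = 0) :
    ∃ u ∈ Kj R α M (j + 1), kz R x u = c := by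
  let ρ : Finset α → Finset α → M := fun V F => if F ⊆ V then κ V (c F) else 0
  have e1 : ∀ V, ρ V ∈ Kj R α M j := fun V => mem_Kj.2 fun F hF => by
    simp [ρ, mem_Kj.1 hc F hF]
  have e2 : ∀ V, kz R x (ρ V) = 0 := fun V => funext fun G => by
    by_cases h : G ⊆ V
    · have := congrArg (κ V) (congrFun h5 G)
      rw [kz_apply, map_sum, Pi.zero_apply, map_zero] at this
      rw [kz_apply, Pi.zero_apply, ← this]
      refine sum_congr rfl fun l _ => ?_
      by_cases h' : l ∈ V <;> simp [ρ, h2, h', h, insert_subset_iff, sg]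
    · rw [kz_apply]
      exact sum_eq_zero fun l _ => by simp [ρ, h, insert_subset_iff]
  have e3 : ∀ V, ∃ u ∈ Kj R α M (j + 1), kz R x u = ρ V := fun V => by
    induction V using Finset.induction_on with
    | empty =>
      refine ⟨0, zero_mem _, funext fun F => ?_⟩
      by_cases h : F = ∅ <;> simp [ρ, h, h6]
    | insert v V hv ih =>
      obtain ⟨u, hu, hu'⟩ := ih
      obtain ⟨w, hw, hw'⟩ := kz_div (h1 v) (sub_mem (e1 (insert v V)) (e1 V))
        (by rw [map_sub, e2, e2, sub_self]) fun F hF => by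
          simp only [ρ, Pi.sub_apply, subset_insert_iff_of_notMem hF]
          split_ifs
          · exact h4 V v _
          · exact ⟨0, by simp⟩
      exact ⟨w + u, add_mem hw hu, by rw [map_add, hu', hw', sub_add_cancel]⟩
  simpa [ρ, h3] using e3 univ

theorem gen_kz [Nontrivial R] [Module.Free R M] [Module.Finite R M] {N n : ℕ}
    (hn : Fintype.card α = n + 3) (U : Submodule R M)
    (hex : ∀ j c, c ∈ Kj R α M j → kz R x c = 0 → c ∅ ∈ U → ∃ u ∈ Kj R α M (j + 1), kz R x u = c)
    (hU : ∀ l f, x l * f ∈ U) (φ : M →ₗ[R] Fin N → R) (ρ : α → M →ₗ[R] M)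
    (μ : (Fin N → R) →ₗ[R] M) (h : ∀ y, ∑ l, ρ l (x l * y) + μ (φ y) = y) :
    Gen R N (n + 2) U := by
  have i1 : ∀ j, Module.Free R (Kj R α M j) := fun j => Module.Free.of_equiv (KjEquiv j)
  have i2 : ∀ j, Module.Finite R (Kj R α M j) := fun j => Module.Finite.equiv (KjEquiv j)
  let B : ℕ → Submodule R (Finset α → M) := fun j => (Kj R α M (j + 1)).map (kz R x)
  let f : ∀ j, Kj R α M (j + 1) →ₗ[R] B j := fun j => (kz R x).submoduleMap _
  have f1 : ∀ j, Surjective (f j) := fun j => LinearMap.submoduleMap_surjective _ _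
  have f2 : ∀ j c, f j c = 0 ↔ c.1 ∈ B (j + 1) := fun j c => by
    rw [Subtype.ext_iff]
    change kz R x c.1 = 0 ↔ _
    constructor
    · intro hc
      exact hex _ _ c.2 hc (by rw [mem_Kj.1 c.2 ∅ (by simp)]; exact zero_mem _)
    · rintro ⟨u, -, hu⟩
      rw [← hu, kz_kz]
  have f3 : ∀ j, B j ≤ Kj R α M j := by
    rintro j _ ⟨u, hu, rfl⟩
    exact Kj_kz hu
  let ι : ∀ j, B j →ₗ[R] Kj R α M j := fun j => Submodule.inclusion (f3 j)
  have f4 : ∀ j, Injective (ι j) := fun j => Submodule.inclusion_injective _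
  have f5 : ∀ j c, f j c = 0 ↔ ∃ y, ι (j + 1) y = c := fun j c => by
    rw [f2]
    exact ⟨fun hc => ⟨⟨c.1, hc⟩, rfl⟩, fun ⟨y, hy⟩ => hy ▸ y.2⟩
  have f6 : ∀ y : M, Pi.single univ y ∈ Kj R α M (n + 3) := fun y => mem_Kj.2 fun F hF =>
    Pi.single_eq_of_ne (by rintro rfl; exact hF hn) _
  have g1 : Gen R N 1 (B (n + 1) × M) := by
    refine Gen.serre (f (n + 1)) (f1 _) (LinearMap.codRestrict _
      (kz R x ∘ₗ LinearMap.single R (fun _ => M) univ) fun y => Kj_kz (f6 y)) (fun c => ?_) φ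
      ((∑ l, ρ l ∘ₗ LinearMap.mulLeft R (sg M l (univ.erase l)) ∘ₗ LinearMap.proj (univ.erase l)) ∘ₗ
        Submodule.subtype _) μ fun y => ?_
    · rw [f2]
      constructor
      · rintro ⟨u, hu, hu'⟩
        refine ⟨u univ, Subtype.ext ?_⟩
        rw [← hu']
        change kz R x (Pi.single univ (u univ)) = _
        congr 1
        ext F
        by_cases hF : F = univ
        · simp [hF]
        · rw [Pi.single_eq_of_ne hF, mem_Kj.1 hu F fun h' => hF (card_eq_iff_eq_univ F |>.1 (h'.trans hn.symm))]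
      · rintro ⟨y, rfl⟩
        exact ⟨_, f6 y, rfl⟩
    · refine Eq.trans ?_ (h y)
      congr 1
      simp only [LinearMap.comp_apply, LinearMap.sum_apply]
      refine sum_congr rfl fun l _ => congrArg (ρ l) ?_
      change sg M l (univ.erase l) * kz R x (Pi.single univ y) (univ.erase l) = _
      rw [kz_apply, compl_erase, compl_univ, insert_empty_eq, sum_singleton,
        insert_erase (mem_univ l), Pi.single_eq_same]
      linear_combination x l * y * sg_sq (M := M) l (univ.erase l)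
  have g2 : Gen R N 2 (B n) := by
    refine g1.step (f n ∘ₗ LinearMap.fst R _ M) ((f1 n).comp Prod.fst_surjective)
      ((ι (n + 1)).prodMap LinearMap.id) ((f4 _).prodMap injective_id) fun c => ?_
    refine (f5 n c.1).trans ⟨fun ⟨y, hy⟩ => ⟨(y, c.2), Prod.ext hy rfl⟩, fun ⟨y, hy⟩ => ?_⟩
    exact ⟨y.1, congrArg Prod.fst hy⟩
  have g3 : ∀ t j, j + t = n → Gen R N (t + 2) (B j) := fun t => by
    induction t with
    | zero => rintro j rfl; exact g2
    | succ t ih => exact fun j hj => (ih (j + 1) (by omega)).step (f j) (f1 j) _ (f4 _) (f5 j)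
  refine (g3 n 0 (zero_add n)).equiv (LinearEquiv.ofBijective (LinearMap.codRestrict U
    (LinearMap.proj ∅ ∘ₗ (B 0).subtype) ?_) ⟨?_, ?_⟩)
  · rintro ⟨_, u, -, rfl⟩
    change kz R x u ∅ ∈ U
    rw [kz_apply]
    exact U.sum_mem fun l _ => by rw [mul_comm (sg M l ∅), mul_assoc]; exact hU _ _
  · rw [injective_iff_map_eq_zero]
    intro c hc
    ext F
    by_cases hF : F = ∅
    · rw [hF]
      exact congrArg Subtype.val hc
    · exact mem_Kj.1 (f3 0 c.2) F (by simpa using hF)
  · intro y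
    refine ⟨⟨Pi.single ∅ y.1, hex 0 _ (mem_Kj.2 fun F hF => Pi.single_eq_of_ne
      (by simpa using hF) _) (funext fun G => ?_) (by simp)⟩, Subtype.ext (by simp)⟩
    rw [kz_apply]
    exact sum_eq_zero fun l _ => by rw [Pi.single_eq_of_ne (insert_ne_empty _ _), mul_zero]

theorem gen_ideal [Nontrivial R] {n : ℕ} (hn : Fintype.card α = n + 3) (I : Ideal R) {ι : Type}
    [Fintype ι] (b : Module.Basis ι R M) (π : M →+* R ⧸ I)
    (hπ : ∀ p, π (algebraMap R M p) = Ideal.Quotient.mk I p)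
    (κ : Finset α → M →+* M) (h1 : ∀ v m, x v * m = 0 → m = 0)
    (h2 : ∀ V l, κ V (x l) = if l ∈ V then x l else 0) (h3 : ∀ f, κ univ f = f)
    (h4 : ∀ V v f, ∃ q, x v * q = κ (insert v V) f - κ V f) (h5 : ∀ f, π f = 0 ↔ κ ∅ f = 0)
    (W : ι) (ν : ι → ℕ) (h6 : ∀ w, w ≠ W → ∃ (l : α) (w' : ι) (r : R), ν w' < ν w ∧
      ∀ y, b.coord w y = r * b.coord w' y - b.coord w' (x l * y)) :
    Gen R 1 (n + 2) I := by
  have i1 : Module.Free R M := Module.Free.of_basis b
  have i2 : Module.Finite R M := Module.Finite.of_basis b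
  let π' : M →ₗ[R] R ⧸ I := (AlgHom.mk π hπ).toLinearMap
  have h7 : ∀ w, ∃ (μ : α → M →ₗ[R] R) (p : R), ∀ y,
      b.coord w y = ∑ l, μ l (x l * y) + p * b.coord W y := fun w => by
    induction hw : ν w using Nat.strong_induction_on generalizing w with
    | h m ih =>
      by_cases h : w = W
      · exact ⟨0, 1, fun y => by simp [h]⟩
      obtain ⟨l, w', r, h7, h8⟩ := h6 w h
      obtain ⟨μ, p, h9⟩ := ih _ (hw ▸ h7) w' rfl
      refine ⟨r • μ - Pi.single l (b.coord w'), r * p, fun y => ?_⟩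
      have h10 : ∑ l', (Pi.single l (b.coord w') : α → M →ₗ[R] R) l' (x l' * y) =
          b.coord w' (x l * y) := by
        rw [sum_eq_single l (fun l' _ hl => by rw [Pi.single_eq_of_ne hl]; rfl) (by simp),
          Pi.single_eq_same]
      rw [h8, h9 y]
      simp only [Pi.sub_apply, Pi.smul_apply, LinearMap.sub_apply, LinearMap.smul_apply,
        smul_eq_mul, sum_sub_distrib, ← mul_sum]
      rw [h10]
      ring
  choose μ p h7 using h7
  have h8 : Gen R 1 (n + 2) (LinearMap.ker π') := by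
    refine gen_kz (x := x) hn _ (fun j c hc hc' h => kz_exact κ h1 h2 h3 h4 hc hc' ((h5 _).1 h))
      (fun l f => (h5 _).2 (by simp [h2])) (LinearMap.pi fun _ => b.coord W)
      (fun l => ∑ w, (μ w l).smulRight (b w))
      ((LinearMap.proj 0).smulRight (∑ w, p w • b w)) fun y => ?_
    refine Eq.trans ?_ (b.sum_repr y)
    simp only [LinearMap.sum_apply, LinearMap.smulRight_apply, LinearMap.proj_apply,
      LinearMap.pi_apply, smul_sum]
    rw [sum_comm, ← sum_add_distrib]
    refine sum_congr rfl fun w _ => ?_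
    rw [← sum_smul, smul_smul, ← add_smul, mul_comm, ← h7]
    rfl
  have h9 := h8.schanuel π' (fun z => by
    obtain ⟨z, rfl⟩ := Ideal.Quotient.mk_surjective z
    exact ⟨_, hπ z⟩) I.mkQ I.mkQ_surjective
  exact h9.equiv (LinearEquiv.ofEq _ _ (Submodule.ker_mkQ I))

end Pool.Agent.Gor
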