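import Pool.Agent.H.MP_05ef64_al.B

set_option autoImplicit false

namespace Pool.Agent.Gor

open Finset Function MvPolynomial

lemma coord_step {R M ι : Type} [CommRing R] [CommRing M] [Algebra R M] (b : Module.Basis ι R M)
    (x τ : M) (r : R) (hx : algebraMap R M r = x + τ) (w w' : ι)
    (h : ∀ v, ∃ (v' : ι) (c : R), τ * b v = c • b v' ∧ (v' = w' ↔ v = w) ∧ (v = w → c = 1))
    (y : M) : b.coord w y = r * b.coord w' y - b.coord w' (x * y) := by
  classical
  have : b.coord w = b.coord w' ∘ₗ LinearMap.mulLeft R τ := b.ext fun v => by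
    obtain ⟨v', c, h1, h2, h3⟩ := h v
    rw [LinearMap.comp_apply, LinearMap.mulLeft_apply, h1, map_smul]
    simp only [Module.Basis.coord_apply, Module.Basis.repr_self, Finsupp.single_apply, h2]
    split_ifs with h4
    · simp [h3 h4]
    · simp
  rw [this, LinearMap.comp_apply, LinearMap.mulLeft_apply, ← smul_eq_mul r, ← map_smul, ← map_sub,
    Algebra.smul_def, hx]
  congr 1
  ring

variable (k : Type) [Field k] {n : ℕ} (g : Fin (n + 1) → ℕ)

/-- The semigroup. -/
abbrev SG : AddSubmonoid ℕ := AddSubmonoid.closure (Set.range g)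

/-- The presentation map. -/
noncomputable abbrev ev : MvPolynomial (Fin (n + 1)) k →ₐ[k] Polynomial k :=
  aeval fun l => Polynomial.X ^ g l

/-- The semigroup ring. -/
abbrev AR : Type := (ev k g).range

lemma pow_mem {s : ℕ} (hs : s ∈ SG g) : Polynomial.X ^ s ∈ (ev k g).range := by
  induction hs using AddSubmonoid.closure_induction with
  | mem x hx =>
    obtain ⟨l, rfl⟩ := hx
    exact ⟨X l, by simp⟩
  | zero => simp
  | add x y _ _ hx hy => rw [pow_add]; exact mul_mem hx hy

/-- The monomials of the semigroup ring. -/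
noncomputable def tA (s : SG g) : AR k g := ⟨Polynomial.X ^ s.1, pow_mem k g s.2⟩

lemma tA_add (a b : SG g) : tA k g (a + b) = tA k g a * tA k g b := Subtype.ext (pow_add _ _ _)

lemma tA_smul (m : ℕ) (a : SG g) : tA k g (m • a) = tA k g a ^ m :=
  Subtype.ext (by simp [tA, ← pow_mul, mul_comm])

lemma tA_zero : tA k g 0 = 1 := Subtype.ext (pow_zero _)

/-- The generators. -/
def gS (l : Fin (n + 1)) : SG g := ⟨g l, AddSubmonoid.subset_closure ⟨l, rfl⟩⟩

lemma th_X (l : Fin (n + 1)) : (ev k g).rangeRestrict (X l) = tA k g (gS g l) :=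
  Subtype.ext (by simp [tA, gS])

/-- The Apery set. -/
def Ap : Type := {w : SG g // ∀ s : SG g, w ≠ s + gS g 0}

lemma ap_dec (h0 : g 0 ≠ 0) (s : SG g) : ∃ (a : ℕ) (w : Ap g), s = a • gS g 0 + w.1 := by
  induction hs : s.1 using Nat.strong_induction_on generalizing s with
  | h m ih =>
    by_cases h : ∀ s' : SG g, s ≠ s' + gS g 0
    · exact ⟨0, ⟨s, h⟩, by simp⟩
    · push Not at h
      obtain ⟨s', rfl⟩ := h
      obtain ⟨a, w, h⟩ := ih s'.1 (by
        rw [← hs]; change s'.1 < s'.1 + g 0; omega) s' rfl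
      exact ⟨a + 1, w, by rw [h, succ_nsmul]; abel⟩

lemma ap_uniq {a a' : ℕ} {w w' : Ap g} (h : a • gS g 0 + w.1 = a' • gS g 0 + w'.1) :
    a = a' ∧ w = w' := by
  wlog h1 : a ≤ a' generalizing a a' w w'
  · exact (this h.symm (by omega)).imp Eq.symm Eq.symm
  obtain ⟨d, rfl⟩ := Nat.exists_eq_add_of_le h1
  rw [add_nsmul, add_assoc, add_right_inj] at h
  cases d with
  | zero => exact ⟨rfl, Subtype.ext (by simpa using h)⟩
  | succ d => exact absurd (by rw [h, succ_nsmul]; abel) (w.2 (d • gS g 0 + w'.1))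

/-- The untwisted structure map. -/
noncomputable def ph0 : MvPolynomial (Fin (n + 1)) k →ₐ[k] MvPolynomial (Fin n) (AR k g) :=
  aeval (Fin.cons (C (tA k g (gS g 0))) X : Fin (n + 1) → MvPolynomial (Fin n) (AR k g))

lemma ph0_mon (v : Fin (n + 1) →₀ ℕ) (c : k) :
    ph0 k g (monomial v c) = monomial v.tail (c • tA k g (v 0 • gS g 0)) := by
  rw [ph0, aeval_monomial, Finsupp.prod_fintype _ _ (by simp), Fin.prod_univ_succ, monomial_eq,
    Finsupp.prod_fintype _ _ (by simp), tA_smul, Algebra.smul_def, map_mul, map_pow, mul_assoc]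
  rfl

open Classical in
lemma ph0_key (u : Fin (n + 1) →₀ ℕ) (w w' : Ap g) (q : MvPolynomial (Fin (n + 1)) k) :
    (coeff u.tail (ph0 k g q * C (tA k g w'.1))).1.coeff (u 0 • gS g 0 + w.1).1 =
      if w' = w then coeff u q else 0 := by
  induction q using MvPolynomial.induction_on' with
  | monomial v c =>
    rw [ph0_mon, mul_comm, C_mul_monomial, mul_smul_comm, ← tA_add, coeff_monomial, coeff_monomial]
    by_cases h1 : v.tail = u.tail
    · rw [if_pos h1]
      change (c • Polynomial.X ^ (w'.1 + v 0 • gS g 0).1).coeff _ = _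
      rw [Polynomial.coeff_smul, Polynomial.coeff_X_pow, add_comm w'.1]
      by_cases h2 : (u 0 • gS g 0 + w.1).1 = (v 0 • gS g 0 + w'.1).1
      · obtain ⟨h3, h4⟩ := ap_uniq g (Subtype.ext h2)
        rw [if_pos h2, if_pos h4.symm, if_pos (by rw [← v.cons_tail, ← u.cons_tail, h1, h3])]
        simp
      · rw [if_neg h2, smul_zero]
        split_ifs with h3 h4
        · exact absurd (by rw [h3, h4]) h2
        · rfl
        · rfl
    · rw [if_neg h1, if_neg (fun h : v = u => h1 (by rw [h]))]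
      simp
  | add p q hp hq =>
    rw [map_add, add_mul, coeff_add, Subalgebra.coe_add, Polynomial.coeff_add, hp, hq, coeff_add]
    split_ifs <;> simp

lemma ph0_inj [Fintype (Ap g)] (p : Ap g → MvPolynomial (Fin (n + 1)) k)
    (h : ∑ w, ph0 k g (p w) * C (tA k g w.1) = 0) (w : Ap g) : p w = 0 := by
  classical
  ext u
  have := congrArg (fun f => (coeff u.tail f).1.coeff (u 0 • gS g 0 + w.1).1) h
  simp only [coeff_sum, AddSubmonoidClass.coe_finsetSum, Polynomial.finsetSum_coeff,
    ph0_key] at this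
  simpa using this

lemma ph0_surj [Fintype (Ap g)] (h0 : g 0 ≠ 0) (f : MvPolynomial (Fin n) (AR k g)) :
    ∃ p : Ap g → MvPolynomial (Fin (n + 1)) k, ∑ w, ph0 k g (p w) * C (tA k g w.1) = f := by
  classical
  induction f using MvPolynomial.induction_on with
  | C a =>
    obtain ⟨q, rfl⟩ := (ev k g).rangeRestrict_surjective a
    induction q using MvPolynomial.induction_on' with
    | monomial v c =>
      obtain ⟨a, w, h⟩ := ap_dec g h0 (∑ l, v l • gS g l)
      refine ⟨Pi.single w (monomial (Finsupp.cons a 0) c), ?_⟩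
      rw [sum_eq_single w (fun w' _ h => by simp [h]) (by simp), Pi.single_eq_same, ph0_mon,
        Finsupp.tail_cons, Finsupp.cons_zero, monomial_zero', ← map_mul, smul_mul_assoc, ← tA_add,
        ← h]
      refine congrArg C (Subtype.ext ?_)
      change c • Polynomial.X ^ (∑ l, v l • gS g l).1 = ev k g (monomial v c)
      rw [aeval_monomial, Finsupp.prod_fintype _ _ (by simp), Algebra.smul_def]
      simp [← pow_mul, prod_pow_eq_pow_sum, gS, mul_comm]
    | add p q hp hq =>
      obtain ⟨p', hp⟩ := hp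
      obtain ⟨q', hq⟩ := hq
      exact ⟨p' + q', by simp [add_mul, sum_add_distrib, hp, hq]⟩
  | add p q hp hq =>
    obtain ⟨p', rfl⟩ := hp
    obtain ⟨q', rfl⟩ := hq
    exact ⟨p' + q', by simp [add_mul, sum_add_distrib]⟩
  | mul_X p i hp =>
    obtain ⟨p', rfl⟩ := hp
    refine ⟨fun w => p' w * X i.succ, ?_⟩
    rw [sum_mul]
    refine sum_congr rfl fun w _ => ?_
    rw [map_mul, show ph0 k g (X i.succ) = X i by simp [ph0]]
    ring

/-- A shift of the variables. -/
noncomputable def sh {A : Type} [CommRing A] (a : Fin n → A) :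
    MvPolynomial (Fin n) A →ₐ[A] MvPolynomial (Fin n) A := aeval fun i => X i + C (a i)

lemma sh_sh {A : Type} [CommRing A] (a b : Fin n → A) (h : a + b = 0) (f : MvPolynomial (Fin n) A) :
    sh a (sh b f) = f := by
  have : (sh a).comp (sh b) = AlgHom.id A _ := by
    ext1 i
    have := congrFun h i
    simp only [Pi.add_apply, Pi.zero_apply] at this
    simp only [sh, AlgHom.comp_apply, aeval_X, map_add, aeval_C, algebraMap_eq, AlgHom.id_apply]
    rw [add_assoc, ← map_add, this, map_zero, add_zero]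
  exact DFunLike.congr_fun this f

lemma sh_C {A : Type} [CommRing A] (a : Fin n → A) (c : A) : sh a (C c) = C c := by simp [sh]

/-- The twisted structure map. -/
noncomputable def ph : MvPolynomial (Fin (n + 1)) k →+* MvPolynomial (Fin n) (AR k g) :=
  (sh fun i => tA k g (gS g i.succ)).toRingHom.comp (ph0 k g).toRingHom

lemma ph_apply (p : MvPolynomial (Fin (n + 1)) k) :
    ph k g p = sh (fun i => tA k g (gS g i.succ)) (ph0 k g p) := rfl

lemma ph_X0 : ph k g (X 0) = C (tA k g (gS g 0)) := by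
  rw [ph_apply, ph0, aeval_X, Fin.cons_zero, sh_C]

lemma ph_Xs (i : Fin n) : ph k g (X i.succ) = X i + C (tA k g (gS g i.succ)) := by
  rw [ph_apply, ph0, aeval_X, Fin.cons_succ, sh, aeval_X]

lemma cc_ph (p : MvPolynomial (Fin (n + 1)) k) :
    constantCoeff (ph k g p) = (ev k g).rangeRestrict p := by
  have : constantCoeff.comp (ph k g) = (ev k g).rangeRestrict.toRingHom := by
    refine ringHom_ext (fun c => ?_) fun l => ?_
    · change constantCoeff (ph k g (C c)) = (ev k g).rangeRestrict (C c)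
      rw [ph_apply, algHom_C, algHom_C, MvPolynomial.algebraMap_apply, sh_C, constantCoeff_C]
    · change constantCoeff (ph k g (X l)) = (ev k g).rangeRestrict (X l)
      rw [th_X]
      refine Fin.cases ?_ (fun l => ?_) l
      · rw [ph_X0, constantCoeff_C]
      · rw [ph_Xs, map_add, constantCoeff_C, constantCoeff_X, zero_add]
  exact DFunLike.congr_fun this p

lemma basis_of {R M ι : Type} [CommRing R] [CommRing M] [Algebra R M] [Fintype ι] (v : ι → M)
    (h1 : ∀ p : ι → R, ∑ w, algebraMap R M (p w) * v w = 0 → ∀ w, p w = 0)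
    (h2 : ∀ f, ∃ p : ι → R, ∑ w, algebraMap R M (p w) * v w = f) :
    ∃ b : Module.Basis ι R M, ∀ w, b w = v w := by
  simp only [← Algebra.smul_def] at h1 h2
  exact ⟨Module.Basis.mk (Fintype.linearIndependent_iff.2 h1)
    fun f _ => (Submodule.mem_span_range_iff_exists_fun _).2 (h2 f), Module.Basis.mk_apply _ _⟩

lemma ph_sum [Fintype (Ap g)] (p : Ap g → MvPolynomial (Fin (n + 1)) k) :
    ∑ w, ph k g (p w) * C (tA k g w.1) =
      sh (fun i => tA k g (gS g i.succ)) (∑ w, ph0 k g (p w) * C (tA k g w.1)) := by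
  rw [map_sum]
  exact sum_congr rfl fun w _ => by rw [map_mul, sh_C, ph_apply]

/-- Killing the variables outside `V`. -/
noncomputable def ka {A : Type} [CommRing A] (V : Finset (Fin n)) :
    MvPolynomial (Fin n) A →+* MvPolynomial (Fin n) A :=
  (aeval fun i => if i ∈ V then X i else 0 : _ →ₐ[A] MvPolynomial (Fin n) A).toRingHom

lemma ka_X {A : Type} [CommRing A] (V : Finset (Fin n)) (l : Fin n) :
    ka (A := A) V (X l) = if l ∈ V then X l else 0 := by simp [ka]

lemma ka_univ {A : Type} [CommRing A] (f : MvPolynomial (Fin n) A) : ka univ f = f := by simp [ka]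

lemma ka_empty {A : Type} [CommRing A] (f : MvPolynomial (Fin n) A) :
    ka ∅ f = C (constantCoeff f) := by
  simp only [ka, notMem_empty, if_false]
  exact aeval_zero' f

lemma ka_insert {A : Type} [CommRing A] (V : Finset (Fin n)) (v : Fin n)
    (f : MvPolynomial (Fin n) A) : ∃ q, X v * q = ka (insert v V) f - ka V f := by
  refine (exists_eq_mul_right_of_dvd ?_).imp fun _ h => h.symm
  induction f using MvPolynomial.induction_on with
  | C c => simp [ka]
  | add p q hp hq =>
    rw [map_add, map_add, add_sub_add_comm]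
    exact hp.add hq
  | mul_X p i hp =>
    rw [map_mul, map_mul, ← sub_add_sub_cancel _ (ka V p * ka (insert v V) (X i)), ← sub_mul,
      ← mul_sub, ka_X, ka_X]
    refine (hp.mul_right _).add (Dvd.dvd.mul_left ?_ _)
    by_cases h1 : i ∈ V
    · simp [h1]
    · by_cases h2 : i = v
      · simp [h2]
        split_ifs <;> simp
      · simp [h1, h2]

variable {g} {F : ℕ}

lemma ap_bd (hs : ∀ z ∉ SG g, ∃ s ∈ SG g, z + s = F) (w : Ap g) :
    ∃ s ∈ SG g, w.1.1 + s = F + g 0 := by
  by_cases h : g 0 ≤ w.1.1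
  · obtain ⟨s, h1, h2⟩ := hs (w.1.1 - g 0) fun h' => w.2 ⟨_, h'⟩
      (Subtype.ext (Nat.sub_add_cancel h).symm)
    exact ⟨s, h1, by omega⟩
  · by_cases h1 : F + g 0 - w.1.1 ∈ SG g
    · exact ⟨_, h1, by omega⟩
    · obtain ⟨s, -, h2⟩ := hs _ h1
      omega

lemma ap_next (hF : F ∉ SG g) (hs : ∀ z ∉ SG g, ∃ s ∈ SG g, z + s = F) (w : Ap g)
    (hw : w.1.1 ≠ F + g 0) : ∃ (l : Fin n) (w' : Ap g), w'.1 = w.1 + gS g l.succ := by
  obtain ⟨s, h1, h2⟩ := ap_bd hs w
  obtain ⟨l, s', h3⟩ : ∃ (l : Fin (n + 1)) (s' : SG g), s = g l + s'.1 := by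
    have : s = 0 ∨ ∃ (l : Fin (n + 1)) (s' : SG g), s = g l + s'.1 := by
      clear h2
      induction h1 using AddSubmonoid.closure_induction with
      | mem x hx =>
        obtain ⟨l, rfl⟩ := hx
        exact Or.inr ⟨l, 0, rfl⟩
      | zero => exact Or.inl rfl
      | add x y hx' hy' hx hy =>
        rcases hx with rfl | ⟨l, s', rfl⟩
        · simpa using hy
        · exact Or.inr ⟨l, s' + ⟨y, hy'⟩, add_assoc _ _ _⟩
    exact this.resolve_left fun h => hw (by omega)
  have h4 : ∀ t : SG g, w.1 + gS g l ≠ t + gS g 0 := fun t h => hF (by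
    have h5 : w.1.1 + g l = t.1 + g 0 := congrArg Subtype.val h
    rw [show F = t.1 + s'.1 by omega]
    exact (t + s').2)
  obtain ⟨l, rfl⟩ := Fin.exists_succ_eq.2 (show l ≠ 0 by rintro rfl; exact h4 _ rfl)
  exact ⟨l, ⟨_, h4⟩, rfl⟩

theorem gen_sym {m : ℕ} (hn : n = m + 3) (h0 : ∀ l, g l ≠ 0) (hF : F ∉ SG g)
    (hs : ∀ z ∉ SG g, ∃ s ∈ SG g, z + s = F) :
    Gen (MvPolynomial (Fin (n + 1)) k) 1 (m + 2) (RingHom.ker (ev k g).rangeRestrict) := by
  classical
  have : Finite (Ap g) := Finite.of_injective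
    (fun w : Ap g => (⟨w.1.1, by obtain ⟨s, -, h⟩ := ap_bd hs w; omega⟩ : Fin (F + g 0 + 1)))
    fun w w' h => Subtype.ext (Subtype.ext (congrArg Fin.val h))
  have := Fintype.ofFinite (Ap g)
  let := (ph k g).toAlgebra
  obtain ⟨b, hb⟩ := basis_of (R := MvPolynomial (Fin (n + 1)) k)
    (fun w : Ap g => (C (tA k g w.1) : MvPolynomial (Fin n) (AR k g)))
    (fun p hp => ph0_inj k g p (by
      have hp' : ∑ w, ph k g (p w) * C (tA k g w.1) = 0 := hp
      rw [← sh_sh _ _ (neg_add_cancel fun i => tA k g (gS g i.succ)) (∑ w, _), ← ph_sum, hp',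
        map_zero]))
    fun f => by
      obtain ⟨p, hp⟩ := ph0_surj k g (h0 0) (sh (-fun i => tA k g (gS g i.succ)) f)
      refine ⟨p, (ph_sum k g p).trans ?_⟩
      rw [hp, sh_sh _ _ (add_neg_cancel _)]
  let e := Ideal.quotientKerAlgEquivOfSurjective (ev k g).rangeRestrict_surjective
  have hW : F + g 0 ∈ SG g := by
    by_contra h
    obtain ⟨s, -, h2⟩ := hs _ h
    have := h0 0
    omega
  let W : Ap g := ⟨⟨F + g 0, hW⟩, fun s h => hF (by
    have h1 : F + g 0 = s.1 + g 0 := congrArg Subtype.val h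
    rw [Nat.add_right_cancel h1]
    exact s.2)⟩
  refine gen_ideal (x := X) ((Fintype.card_fin _).trans hn) _ b
    (e.symm.toRingEquiv.toRingHom.comp constantCoeff) (fun p => ?_) ka
    (fun v m h => isRegular_X.left (h.trans (mul_zero _).symm)) ka_X ka_univ ka_insert
    (fun f => ?_) W (fun w => F + g 0 - w.1.1) fun w hw => ?_
  · change e.symm (constantCoeff (ph k g p)) = _
    rw [cc_ph, AlgEquiv.symm_apply_eq]
    rfl
  · change e.symm (constantCoeff f) = 0 ↔ _
    rw [ka_empty, map_eq_zero_iff _ e.symm.injective, C_eq_zero]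
  · obtain ⟨l, w', h⟩ := ap_next hF hs w fun h => hw (Subtype.ext (Subtype.ext h))
    refine ⟨l, w', X l.succ, ?_, coord_step b _ (C (tA k g (gS g l.succ))) _ (ph_Xs k g l) _ _
      fun v => ?_⟩
    · have h1 := h0 l.succ
      have h2 : w'.1.1 = w.1.1 + g l.succ := congrArg Subtype.val h
      obtain ⟨s, -, h3⟩ := ap_bd hs w'
      omega
    · obtain ⟨c, v', h5⟩ := ap_dec g (h0 0) (v.1 + gS g l.succ)
      have h6 : v = w → c = 0 ∧ v' = w' := fun h' =>
        ap_uniq g (by rw [← h5, h', zero_nsmul, zero_add, h])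
      refine ⟨v', X 0 ^ c, ?_, ⟨fun h' => ?_, fun h => (h6 h).2⟩, fun h => by rw [(h6 h).1, pow_zero]⟩
      · rw [hb, hb, ← map_mul, ← tA_add, (add_comm (gS g l.succ) v.1).trans h5, tA_add, tA_smul,
          map_mul, map_pow]
        change _ = ph k g (X 0 ^ c) * _
        rw [map_pow, ph_X0]
      · rw [h', h, ← add_assoc, add_left_inj] at h5
        exact (ap_uniq g (a := 0) (by rw [← h5, zero_nsmul, zero_add])).2

end Pool.Agent.Gor
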